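import Pool.Agent.Y546.WQ.Stm5
import Pool.Agent.Y546.WQ.Wie

/-!
# Project TJ: the totally ramified prime above `p` in the `p`-th cyclotomic field
-/

set_option autoImplicit false

namespace Pool.Agent.Y473.WQ

open Pool.Agent.Y546.WQ NumberField IsDedekindDomain Polynomial

section

variable {p : ℕ} [Fact p.Prime] {E : Type} [Field E] [NumberField E]

theorem cyc_ext (c : Cyc p E) : IsCyclotomicExtension {p} ℚ E := by
  have hpp : p.Prime := Fact.out
  have : NeZero p := ⟨hpp.ne_zero⟩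
  rw [IsCyclotomicExtension.iff_singleton]
  refine ⟨⟨c.z, c.prim⟩, fun x => ?_⟩
  have hx : IsAlgebraic ℤ x :=
    (IsFractionRing.isAlgebraic_iff ℤ ℚ E).2 (Algebra.IsAlgebraic.isAlgebraic x)
  obtain ⟨m, hm, hi⟩ := hx.exists_integral_multiple
  obtain ⟨f, hf⟩ := c.gen _ hi
  have hz : c.z ∈ Algebra.adjoin ℚ {b : E | b ^ p = 1} :=
    Algebra.subset_adjoin c.prim.pow_eq_one
  have h1 : aeval c.z f ∈ Algebra.adjoin ℚ {b : E | b ^ p = 1} := by
    rw [aeval_eq_sum_range]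
    refine Subalgebra.sum_mem _ fun i _ => ?_
    rw [zsmul_eq_mul]
    exact Subalgebra.mul_mem _ (Subalgebra.intCast_mem _ _) (Subalgebra.pow_mem _ hz _)
  have hm' : (m : ℚ) ≠ 0 := by exact_mod_cast hm
  have h2 : x = (m : ℚ)⁻¹ • aeval c.z f := by
    rw [← hf, zsmul_eq_mul, Algebra.smul_def, map_inv₀, map_intCast, inv_mul_cancel_left₀]
    exact_mod_cast hm
  rw [h2]
  exact Subalgebra.smul_mem _ h1 _

theorem prime_pi (c : Cyc p E) (w : 𝓞 E) (hw : (w : E) = c.z) :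
    Prime (1 - w) ∧ Associated ((1 - w) ^ (p - 1)) ((p : ℕ) : 𝓞 E) := by
  have hpp : p.Prime := Fact.out
  have : NeZero p := ⟨hpp.ne_zero⟩
  have := cyc_ext c
  have h0 : c.prim.toInteger = w := by
    apply RingOfIntegers.ext
    rw [hw]
    rfl
  have h1 : Prime (w - 1) := by
    rw [← h0]
    exact c.prim.zeta_sub_one_prime'
  have h2 : Associated ((w - 1) ^ (p - 1)) ((p : ℕ) : 𝓞 E) := by
    rw [← h0]
    exact IsCyclotomicExtension.Rat.associated_zeta_sub_one_pow_prime p c.prim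
  have h3 : Associated (w - 1) (1 - w) := by
    have : (1 - w) = -(w - 1) := by ring
    rw [this]
    exact (Associated.refl _).neg_right
  exact ⟨h3.prime h1, (h3.symm.pow_pow).trans h2⟩

theorem asIdeal_eq (c : Cyc p E) (w : 𝓞 E) (hw : (w : E) = c.z) (hwp : IsPrimitiveRoot w p)
    (P : HeightOneSpectrum (𝓞 E)) (hP : ((p : ℕ) : 𝓞 E) ∈ P.asIdeal) :
    P.asIdeal = Ideal.span {1 - w} := by
  have h1 := (prime_pi c w hw).1
  have h2 : (Ideal.span {1 - w}).IsPrime := (Ideal.span_singleton_prime h1.ne_zero).2 h1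
  have h3 : (Ideal.span {1 - w}).IsMaximal :=
    h2.isMaximal (by
      intro h
      rw [Ideal.span_singleton_eq_bot] at h
      exact h1.ne_zero h)
  refine (h3.eq_of_le P.isPrime.ne_top ?_).symm
  rw [Ideal.span_singleton_le_iff_mem]
  exact one_sub_mem w hwp.pow_eq_one P.asIdeal P.isPrime hP

theorem val_pi (c : Cyc p E) (w : 𝓞 E) (hw : (w : E) = c.z) (hwp : IsPrimitiveRoot w p)
    (P : HeightOneSpectrum (𝓞 E)) (hP : ((p : ℕ) : 𝓞 E) ∈ P.asIdeal) :
    P.valuation E ((1 - w : 𝓞 E) : E) = WithZero.exp (-1 : ℤ) := by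
  rw [HeightOneSpectrum.valuation_of_algebraMap]
  exact P.intValuation_singleton (prime_pi c w hw).1.ne_zero (asIdeal_eq c w hw hwp P hP)

theorem val_unit (P : HeightOneSpectrum (𝓞 E)) (u : (𝓞 E)ˣ) :
    P.valuation E ((u : 𝓞 E) : E) = 1 := by
  apply val_one
  intro h
  exact P.isPrime.ne_top (Ideal.eq_top_of_isUnit_mem _ h u.isUnit)

theorem val_p (c : Cyc p E) (w : 𝓞 E) (hw : (w : E) = c.z) (hwp : IsPrimitiveRoot w p)
    (P : HeightOneSpectrum (𝓞 E)) (hP : ((p : ℕ) : 𝓞 E) ∈ P.asIdeal) :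
    P.valuation E ((p : ℕ) : E) = WithZero.exp (-((p : ℤ) - 1)) := by
  have hpp : p.Prime := Fact.out
  obtain ⟨u, hu⟩ := (prime_pi c w hw).2
  have h1 : (((p : ℕ) : 𝓞 E) : E) = ((p : ℕ) : E) := map_natCast (algebraMap (𝓞 E) E) p
  have h2 := val_unit P u
  have h3 := val_pi c w hw hwp P hP
  rw [RingOfIntegers.coe_eq_algebraMap] at h1 h2 h3
  rw [← h1, ← hu, map_mul, map_mul, h2, mul_one, map_pow, map_pow, h3, ← WithZero.exp_nsmul]
  congr 1
  rw [nsmul_eq_mul, Nat.cast_sub hpp.one_le]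
  push_cast
  ring

theorem val_nat (c : Cyc p E) (w : 𝓞 E) (hw : (w : E) = c.z) (hwp : IsPrimitiveRoot w p)
    (P : HeightOneSpectrum (𝓞 E)) (hP : ((p : ℕ) : 𝓞 E) ∈ P.asIdeal) (n : ℕ) (hn : n ≠ 0) :
    P.valuation E ((n : ℕ) : E) = WithZero.exp (-((p : ℤ) - 1) * padicValNat p n) := by
  have hpp : p.Prime := Fact.out
  obtain ⟨e, m, hm, rfl⟩ := Nat.exists_eq_pow_mul_and_not_dvd hn p hpp.ne_one
  have hm0 : m ≠ 0 := by
    rintro rfl
    exact hm (dvd_zero _)
  have h1 : padicValNat p (p ^ e * m) = e := by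
    rw [padicValNat.mul (pow_ne_zero _ hpp.ne_zero) hm0, padicValNat.prime_pow,
      padicValNat.eq_zero_of_not_dvd hm, add_zero]
  have h2 : P.valuation E ((m : ℕ) : E) = 1 := by
    have h3 : (((m : ℤ) : 𝓞 E) : E) = ((m : ℕ) : E) := by simp
    rw [← h3]
    apply val_one
    apply int_notMem P.asIdeal P.isPrime p hpp hP
    exact_mod_cast hm
  rw [h1]
  push_cast
  rw [map_mul, h2, mul_one, map_pow, val_p c w hw hwp P hP, ← WithZero.exp_nsmul]
  congr 1
  rw [nsmul_eq_mul]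
  ring

theorem val_int (c : Cyc p E) (w : 𝓞 E) (hw : (w : E) = c.z) (hwp : IsPrimitiveRoot w p)
    (P : HeightOneSpectrum (𝓞 E)) (hP : ((p : ℕ) : 𝓞 E) ∈ P.asIdeal) (n : ℤ) (hn : n ≠ 0) :
    P.valuation E ((n : ℤ) : E) = WithZero.exp (-((p : ℤ) - 1) * padicValInt p n) := by
  have h1 : P.valuation E ((n : ℤ) : E) = P.valuation E ((n.natAbs : ℕ) : E) := by
    rcases Int.natAbs_eq n with h | h
    · conv_lhs => rw [h]
      rw [Int.cast_natCast]
    · conv_lhs => rw [h]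
      rw [Int.cast_neg, Int.cast_natCast, Valuation.map_neg]
  rw [h1, val_nat c w hw hwp P hP _ (Int.natAbs_ne_zero.2 hn)]
  rfl

theorem aeval_hom {R S : Type*} [CommRing R] [CommRing S] (g : R →+* S) (x : R)
    (f : Polynomial ℤ) : g (aeval x f) = aeval (g x) f := by
  have := (Polynomial.aeval_algHom_apply g.toIntAlgHom x f).symm
  exact this

theorem mk_w (w : 𝓞 E) (hwp : IsPrimitiveRoot w p)
    (P : HeightOneSpectrum (𝓞 E)) (hP : ((p : ℕ) : 𝓞 E) ∈ P.asIdeal) :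
    Ideal.Quotient.mk P.asIdeal w = 1 := by
  have := Ideal.Quotient.eq_zero_iff_mem.2
    (one_sub_mem w hwp.pow_eq_one P.asIdeal P.isPrime hP)
  rw [map_sub, map_one, sub_eq_zero] at this
  exact this.symm

theorem rs_w (c : Cyc p E) (w : 𝓞 E) (hw : (w : E) = c.z) (t : (ZMod p)ˣ) :
    rs c t w = w ^ (t : ZMod p).val := by
  apply RingOfIntegers.ext
  have h1 : ((rs c t w : 𝓞 E) : E) = c.σ t (w : E) := rfl
  have h2 : ((w ^ (t : ZMod p).val : 𝓞 E) : E) = (w : E) ^ (t : ZMod p).val :=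
    map_pow (algebraMap (𝓞 E) E) _ _
  rw [h1, hw, c.σ_z, h2, hw]

theorem mk_rs (c : Cyc p E) (w : 𝓞 E) (hw : (w : E) = c.z) (hwp : IsPrimitiveRoot w p)
    (P : HeightOneSpectrum (𝓞 E)) (hP : ((p : ℕ) : 𝓞 E) ∈ P.asIdeal) (t : (ZMod p)ˣ)
    (A : 𝓞 E) : Ideal.Quotient.mk P.asIdeal (rs c t A) = Ideal.Quotient.mk P.asIdeal A := by
  obtain ⟨f, hf⟩ := c.gen (A : E) A.isIntegral_coe
  have hA : A = aeval w f := by
    apply RingOfIntegers.ext
    rw [hf, ← hw]
    exact (aeval_hom (algebraMap (𝓞 E) E) w f).symm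
  have h1 : rs c t A = aeval (w ^ (t : ZMod p).val) f := by
    rw [hA, ← rs_w c w hw t]
    exact aeval_hom (rs c t : 𝓞 E →+* 𝓞 E) w f
  rw [h1, hA, aeval_hom, aeval_hom, map_pow, mk_w w hwp P hP, one_pow]

theorem main3 (c : Cyc p E) (w : 𝓞 E) (hw : (w : E) = c.z) (hwp : IsPrimitiveRoot w p)
    (P : HeightOneSpectrum (𝓞 E)) (hP : ((p : ℕ) : 𝓞 E) ∈ P.asIdeal)
    (r : E) (t : (ZMod p)ˣ) (ε k : ℤ) (hr : r ≠ 0) (hε : ε = 1 ∨ ε = -1)
    (hs : c.σ t r = ε * r) (hv : P.valuation E r = WithZero.exp k) :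
    ((t ^ k : (ZMod p)ˣ) : ZMod p) = ε := by
  have hpp : p.Prime := Fact.out
  have hπ := (prime_pi c w hw).1
  obtain ⟨a, b, hb, hab⟩ := IsFractionRing.div_surjective (A := 𝓞 E) r
  have hb0 : b ≠ 0 := nonZeroDivisors.ne_zero hb
  have ha0 : a ≠ 0 := by
    rintro rfl
    apply hr
    rw [← hab]
    simp
  obtain ⟨A, haA, hA⟩ := (FiniteMultiplicity.of_prime_left hπ ha0).exists_eq_pow_mul_and_not_dvd
  obtain ⟨B, hbB, hB⟩ := (FiniteMultiplicity.of_prime_left hπ hb0).exists_eq_pow_mul_and_not_dvd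
  set i := multiplicity (1 - w) a with hi
  set j := multiplicity (1 - w) b with hj
  have hI := asIdeal_eq c w hw hwp P hP
  have hAP : A ∉ P.asIdeal := by
    rw [hI, Ideal.mem_span_singleton]
    exact hA
  have hBP : B ∉ P.asIdeal := by
    rw [hI, Ideal.mem_span_singleton]
    exact hB
  have vπ : P.valuation E (algebraMap (𝓞 E) E (1 - w)) = WithZero.exp (-1 : ℤ) :=
    val_pi c w hw hwp P hP
  have vA : P.valuation E (algebraMap (𝓞 E) E A) = 1 := val_one P A hAP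
  have vB : P.valuation E (algebraMap (𝓞 E) E B) = 1 := val_one P B hBP
  have va : P.valuation E (algebraMap (𝓞 E) E a) = WithZero.exp (-(i : ℤ)) := by
    rw [haA, map_mul, map_mul, map_pow, map_pow, vA, vπ, mul_one, ← WithZero.exp_nsmul]
    congr 1
    rw [nsmul_eq_mul]
    ring
  have vb : P.valuation E (algebraMap (𝓞 E) E b) = WithZero.exp (-(j : ℤ)) := by
    rw [hbB, map_mul, map_mul, map_pow, map_pow, vB, vπ, mul_one, ← WithZero.exp_nsmul]
    congr 1
    rw [nsmul_eq_mul]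
    ring
  have hk : k = -(i : ℤ) - -(j : ℤ) := by
    rw [← hab, map_div₀, va, vb, ← WithZero.exp_sub] at hv
    exact (WithZero.exp_injective hv).symm
  -- the equation in the ring of integers
  have e1 : rs c t a * b = ε * a * rs c t b := by
    apply RingOfIntegers.coe_injective
    have c1 : algebraMap (𝓞 E) E (rs c t a) = c.σ t (algebraMap (𝓞 E) E a) := rfl
    have c2 : algebraMap (𝓞 E) E (rs c t b) = c.σ t (algebraMap (𝓞 E) E b) := rfl
    have hbE : algebraMap (𝓞 E) E b ≠ 0 := by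
      rw [Ne, FaithfulSMul.algebraMap_eq_zero_iff]
      exact hb0
    have hb' : c.σ t (algebraMap (𝓞 E) E b) ≠ 0 := by
      rw [Ne, map_eq_zero]
      exact hbE
    rw [map_mul, map_mul, map_mul, map_intCast, c1, c2]
    rw [← hab, map_div₀, div_eq_iff hb'] at hs
    rw [hs]
    field_simp
  have e2 : rs c t (1 - w) = (1 - w) * ∑ s ∈ Finset.range (t : ZMod p).val, w ^ s := by
    rw [map_sub, map_one, rs_w c w hw, mul_neg_geom_sum]
  set S : 𝓞 E := ∑ s ∈ Finset.range (t : ZMod p).val, w ^ s with hS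
  have e3 : S ^ i * rs c t A * B = ε * A * S ^ j * rs c t B := by
    have h1 : (1 - w) ^ (i + j) ≠ 0 := pow_ne_zero _ hπ.ne_zero
    apply mul_left_cancel₀ h1
    rw [haA, hbB, map_mul, map_mul, map_pow, map_pow, e2] at e1
    rw [mul_pow, mul_pow] at e1
    rw [pow_add]
    linear_combination e1
  have mS : Ideal.Quotient.mk P.asIdeal S = ((t : ZMod p).val : 𝓞 E ⧸ P.asIdeal) := by
    rw [hS, map_sum]
    simp [mk_w w hwp P hP]
  have e4 := congrArg (Ideal.Quotient.mk P.asIdeal) e3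
  have : P.asIdeal.IsPrime := P.isPrime
  have nA : Ideal.Quotient.mk P.asIdeal A ≠ 0 := fun h => hAP (Ideal.Quotient.eq_zero_iff_mem.1 h)
  have nB : Ideal.Quotient.mk P.asIdeal B ≠ 0 := fun h => hBP (Ideal.Quotient.eq_zero_iff_mem.1 h)
  simp only [map_mul, map_pow, mS, mk_rs c w hw hwp P hP, map_intCast] at e4
  have e5 : (((t : ZMod p).val : 𝓞 E ⧸ P.asIdeal)) ^ i = ε * (((t : ZMod p).val : 𝓞 E ⧸ P.asIdeal)) ^ j := by
    apply mul_right_cancel₀ (mul_ne_zero nA nB)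
    linear_combination e4
  have e6 : (p : ℤ) ∣ ((t : ZMod p).val : ℤ) ^ i - ε * ((t : ZMod p).val : ℤ) ^ j := by
    by_contra h
    apply int_notMem P.asIdeal P.isPrime p hpp hP _ h
    rw [← Ideal.Quotient.eq_zero_iff_mem]
    push_cast
    rw [map_sub, map_mul, map_pow, map_pow, map_natCast, map_intCast, e5, sub_self]
  have e7 : (t : ZMod p) ^ i = ε * (t : ZMod p) ^ j := by
    have h1 := (ZMod.intCast_zmod_eq_zero_iff_dvd _ p).2 e6
    push_cast at h1
    rw [ZMod.natCast_zmod_val, sub_eq_zero] at h1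
    exact h1
  rw [hk]
  have e8 : ((t ^ (-(i : ℤ) - -(j : ℤ)) : (ZMod p)ˣ) : ZMod p) * (t : ZMod p) ^ i =
      (t : ZMod p) ^ j := by
    rw [← Units.val_pow_eq_pow_val, ← Units.val_pow_eq_pow_val, ← Units.val_mul, ← zpow_natCast,
      ← zpow_add, ← zpow_natCast]
    congr 2
    ring
  have hj0 : (t : ZMod p) ^ j ≠ 0 := pow_ne_zero _ t.ne_zero
  apply mul_right_cancel₀ hj0
  rw [e7] at e8
  rcases hε with rfl | rfl
  · push_cast at e8 ⊢
    linear_combination e8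
  · push_cast at e8 ⊢
    linear_combination -e8

end

theorem mainRAM : S_RAM := by
  intro p _ hp2 E _ _ c P hP
  obtain ⟨w, hw, hwp⟩ := exists_zint c
  refine ⟨?_, ?_, ?_⟩
  · have h := val_pi c w hw hwp P hP
    rw [RingOfIntegers.coe_eq_algebraMap, map_sub, map_one] at h
    have hw' : algebraMap (𝓞 E) E w = c.z := hw
    rw [hw'] at h
    exact h
  · intro r k hr hk
    have hn : r.num ≠ 0 := Rat.num_ne_zero.2 hr
    have h1 : ((r : ℚ) : E) = ((r.num : ℤ) : E) / ((r.den : ℕ) : E) := by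
      rw [Rat.cast_def]
    rw [h1, map_div₀, val_int c w hw hwp P hP _ hn, val_nat c w hw hwp P hP _ r.den_ne_zero,
      ← WithZero.exp_sub] at hk
    have h2 := WithZero.exp_injective hk
    rw [padicValRat_def]
    linarith
  · intro r t ε k hr hε hs hv
    exact main3 c w hw hwp P hP r t ε k hr hε hs hv

end Pool.Agent.Y473.WQ
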